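import Pool.Agent.Work.MP_3d4872_al.Pb.Fin

/-!
# MP_3d4872_al: the number of parameters of a list of normal forms

Let `𝔤` be a finite-dimensional complex semisimple Lie algebra with Killing form `κ`. Suppose that
countably many families of bilinear maps on `𝔤`, each depending in a `C¹` way on a parameter in an
open subset of a real space of dimension at most `D`, meet all the equivalence classes of Lie
brackets compatible with `𝔤`.

1. If `U, V` are subspaces of `𝔤` with `[U, U] = [U, V] = 0` and `κ(U, V) = 0`, then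
   `2 dim U dim V ≤ D + 2 dim 𝔤`.
2. If all the simple ideals of `𝔤` are classical, then `2 (dim 𝔤) ^ 2 ≤ 49 (D + 2 dim 𝔤)`.
3. For `𝔤 = sl N`: `2 ⌊N ^ 2 / 4⌋ ^ 2 ≤ D + 2 (N ^ 2 - 1)`.

So the number of parameters of a list of normal forms grows like the square of the dimension
of `𝔤`.
-/

set_option autoImplicit false

namespace Pool.Agent.Results.MP_3d4872_al.ParameterCount

open Module Pool.Agent.Work.MP_3d4872_al Pool.Agent.Work.MP_3d4872_al.Pb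
open LieAlgebra LieAlgebra.SpecialLinear

universe u

theorem result :
    (∀ (𝔤 : Type u) [LieRing 𝔤] [LieAlgebra ℂ 𝔤] [FiniteDimensional ℂ 𝔤]
        [LieAlgebra.IsSemisimple ℂ 𝔤] (U V : Submodule ℂ 𝔤) (D : ℕ),
      (∀ X ∈ U, ∀ Y ∈ U, ⁅X, Y⁆ = 0) →
      (∀ X ∈ U, ∀ Y ∈ V, ⁅X, Y⁆ = 0 ∧ killingForm ℂ 𝔤 X Y = 0) → HasList 𝔤 D →
        2 * (finrank ℂ U * finrank ℂ V) ≤ D + 2 * finrank ℂ 𝔤) ∧
    (∀ (𝔤 : Type u) [LieRing 𝔤] [LieAlgebra ℂ 𝔤] [FiniteDimensional ℂ 𝔤]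
        [LieAlgebra.IsSemisimple ℂ 𝔤] (D : ℕ),
      (∀ I : LieIdeal ℂ 𝔤, IsAtom I → IsClassical I) → HasList 𝔤 D →
        2 * finrank ℂ 𝔤 ^ 2 ≤ 49 * (D + 2 * finrank ℂ 𝔤)) ∧
    (∀ N D : ℕ, 2 ≤ N → HasList (sl (Fin N) ℂ) D →
        2 * (N ^ 2 / 4) ^ 2 ≤ D + 2 * (N ^ 2 - 1)) := by
  refine ⟨fun 𝔤 _ _ _ _ U V D h1 h2 hD => ?_, fun 𝔤 _ _ _ _ D h hD => classical_bound h hD,
    fun N D hN hD => sl_bound hN hD⟩
  exact param_bound_sub h1 (fun X hX Y hY => (h2 X hX Y hY).1)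
    (fun X hX Y hY => (h2 X hX Y hY).2) hD

end Pool.Agent.Results.MP_3d4872_al.ParameterCount
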