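import Pool.Agent.Work.MP_3d4872_al.R1.Final

/-!
# MP_3d4872_al: the compatible Lie brackets of rank one, for every semisimple Lie algebra

Let `𝔤` be a finite-dimensional complex semisimple Lie algebra with Killing form `κ`. Every bracket
compatible with `𝔤` has the form `[X, Y]_R = [R X, Y] + [X, R Y] - R [X, Y]` for a linear operator
`R`. The operators of rank at most one are the operators `R X = κ(y, X) x`. For nonzero `x, y`:

1. `c [X, Y] + [X, Y]_R` is a Lie bracket (equivalently, a Lie bracket compatible with `𝔤`) if and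
   only if `[x, y]` is a multiple of `y` and `κ(x, y) = 0`, or `y` lies in a three-dimensional
   ideal `I`, and `x` lies in `I` or `ad y` is nilpotent.
2. If `𝔤` is not three-dimensional, then `c` and, up to `(x, y) ↦ (s x, s⁻¹ y)` and, for `x` and
   `y` in one three-dimensional ideal, up to `(x, y) ↦ (y, x)`, the pair `(x, y)` are determined by
   the bracket.
3. Hence two of the brackets are equivalent if and only if the scalars are equal and the pairs are
   conjugate under `Aut 𝔤` up to these changes.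
-/

set_option autoImplicit false

namespace Pool.Agent.Results.MP_3d4872_al.RankOne

open Pool.Agent.Work.MP_3d4872_al Pool.Agent.Work.MP_3d4872_al.Sr
open Pool.Agent.Work.MP_3d4872_al.R1

universe u

theorem result (𝔤 : Type u) [LieRing 𝔤] [LieAlgebra ℂ 𝔤] [FiniteDimensional ℂ 𝔤]
    [LieAlgebra.IsSemisimple ℂ 𝔤] :
    (∀ R : 𝔤 →ₗ[ℂ] 𝔤, rk R ≤ 1 ↔ ∃ x y : 𝔤, R = rankOne x y) ∧
    (∀ (c : ℂ) (x y : 𝔤), x ≠ 0 → y ≠ 0 →
      (IsLieBr (br c (rankOne x y)) ↔ PairType x y) ∧
      (Compatible (br c (rankOne x y)) ↔ PairType x y)) ∧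
    (Module.finrank ℂ 𝔤 ≠ 3 → ∀ (c c' : ℂ) (x y x' y' : 𝔤), x ≠ 0 → y ≠ 0 → x' ≠ 0 → y' ≠ 0 →
      (br c (rankOne x y) = br c' (rankOne x' y') ↔ c = c' ∧ SamePair x y x' y') ∧
      (Equivalent (br c (rankOne x y)) (br c' (rankOne x' y')) ↔
        c' = c ∧ ∃ φ : 𝔤 ≃ₗ⁅ℂ⁆ 𝔤, SamePair x y (φ x') (φ y'))) :=
  ⟨rk_le_one_iff, fun c _ _ hx hy => lie_iff c hx hy,
    fun hL _ _ _ _ _ _ hx _ hx' hy' => ⟨br_eq_iff hL hx hx' hy', equiv_iff hL hx hx' hy'⟩⟩

end Pool.Agent.Results.MP_3d4872_al.RankOne
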