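import Pool.Agent.Work.MP_3d4872_al.Sr.Families

/-!
# MP_3d4872_al: the compatible Lie brackets of small rank, for every semisimple Lie algebra

Let `𝔤` be a nonzero finite-dimensional complex semisimple Lie algebra. Every bracket compatible
with `𝔤` has the form `[X, Y]_R = [R X, Y] + [X, R Y] - R [X, Y]` for a linear operator `R`.
Let `m` be a number such that `dim [y, 𝔤] > 4 m` for all `y ≠ 0`.

1. For operators `R` of rank at most `m` and scalars `c`: `c [X, Y] + [X, Y]_R` is a Lie bracket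
   (equivalently, a Lie bracket compatible with `𝔤`) if and only if `R` is a square-zero Nijenhuis
   operator: `R² = 0` and `R [R X, Y] + R [X, R Y] = [R X, R Y]`.
2. The pair `(c, R)` is determined by the bracket, and two such brackets are equivalent if and only
   if the scalars are equal and the operators are conjugate under `Aut 𝔤`.
3. The square-zero Nijenhuis operators of rank `n` are the operators `i ∘ j` of the realizations
   `(i, j)` of pre-Lie algebras of dimension `n` in `𝔤`; two of the brackets of rank at most `m`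
   are equivalent if and only if the realizations are isomorphic; in particular the pre-Lie algebra
   is an invariant of the bracket.
4. The condition on `m` holds for `sl N`, `N ≥ 2 m + 2`, for `so N`, `N ≥ 4 m + 3`, for `sp (2 n)`,
   `n ≥ 2 m + 2`, and for direct products of Lie algebras for which it holds.
5. If moreover `𝔤` has an ideal isomorphic to `sl N`, `N ≥ 2 m + 3`, or `so N`, `N ≥ 4 m + 6`, or
   `sp (2 n)`, `n ≥ 2 m + 3`, then all pre-Lie algebras of dimension `m` occur: there is a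
   family of realizations, and two of its brackets are equivalent if and only if the pre-Lie
   algebras are isomorphic.
-/

set_option autoImplicit false

namespace Pool.Agent.Results.MP_3d4872_al.SmallRank

open Pool.Agent.Work.MP_3d4872_al Pool.Agent.Work.MP_3d4872_al.Sr
open LieAlgebra LieAlgebra.SpecialLinear LieAlgebra.Orthogonal LieAlgebra.Symplectic

universe u

theorem result :
    (∀ (m : ℕ) (𝔤 : Type u) [LieRing 𝔤] [LieAlgebra ℂ 𝔤] [FiniteDimensional ℂ 𝔤]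
        [LieAlgebra.IsSemisimple ℂ 𝔤] [Nontrivial 𝔤], BigOrbits m 𝔤 →
      JacobiIffNijenhuis m 𝔤 ∧ OperatorUnique m 𝔤 ∧ NijenhuisIffRealized 𝔤 ∧
        EquivalentIffIso m 𝔤) ∧
    ((∀ m N : ℕ, 2 * m + 2 ≤ N → BigOrbits m (sl (Fin N) ℂ)) ∧
      (∀ m N : ℕ, 4 * m + 3 ≤ N → BigOrbits m (so (Fin N) ℂ)) ∧
      (∀ m n : ℕ, 2 * m + 2 ≤ n → BigOrbits m (sp (Fin n) ℂ)) ∧
      ∀ (m : ℕ) (𝔤 𝔥 : Type u) [LieRing 𝔤] [LieAlgebra ℂ 𝔤] [FiniteDimensional ℂ 𝔤]
        [LieRing 𝔥] [LieAlgebra ℂ 𝔥] [FiniteDimensional ℂ 𝔥],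
        BigOrbits m 𝔤 → BigOrbits m 𝔥 → BigOrbits m (𝔤 × 𝔥)) ∧
    (∀ (m : ℕ) (𝔤 : Type u) [LieRing 𝔤] [LieAlgebra ℂ 𝔤] [FiniteDimensional ℂ 𝔤]
        [LieAlgebra.IsSemisimple ℂ 𝔤] [Nontrivial 𝔤] (I : LieIdeal ℂ 𝔤), BigOrbits m 𝔤 →
      ((∃ N : ℕ, 2 * m + 3 ≤ N ∧ Nonempty (I ≃ₗ⁅ℂ⁆ sl (Fin N) ℂ)) ∨
        (∃ N : ℕ, 4 * m + 6 ≤ N ∧ Nonempty (I ≃ₗ⁅ℂ⁆ so (Fin N) ℂ)) ∨
        (∃ n : ℕ, 2 * m + 3 ≤ n ∧ Nonempty (I ≃ₗ⁅ℂ⁆ sp (Fin n) ℂ))) →
        CarriesPreLie m 𝔤) ∧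
    (∀ m N : ℕ, 2 * m + 3 ≤ N →
      LieAlgebra.IsSemisimple ℂ (sl (Fin N) ℂ) ∧ CarriesPreLie m (sl (Fin N) ℂ)) := by
  refine ⟨fun m 𝔤 _ _ _ _ _ hL => ⟨fun c R hR => structure_iff hL c hR,
    fun c c' R R' hR hR' => ⟨⟨fun h => shift_injective hL hR hR' h, ?_⟩,
      equivalent_shift_iff hL hR hR'⟩, ⟨fun R hR => ?_, ?_⟩, ?_⟩,
    ⟨?_, ?_, ?_, ?_⟩, ?_, ?_⟩
  · rintro ⟨rfl, rfl⟩
    rfl
  · exact exists_realization hR.1 hR.2
  · intro n μ i j h
    exact ⟨h.isPreLie, by simpa using h.rk_eq, h.nijenhuis⟩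
  · intro n n' μ μ' i j i' j' c c' hn hn' h h'
    exact equivalent_realization_iff hL h h' (by simpa using hn) (by simpa using hn')
  · intro m N hN y hy
    have := orbitDim_sl y hy
    omega
  · intro m N hN y hy
    have := orbitDim_so y hy
    omega
  · intro m n hn y hy
    have := orbitDim_sp y hy
    omega
  · intro m 𝔤 𝔥 _ _ _ _ _ _ h1 h2
    exact h1.prod h2
  · intro m 𝔤 _ _ _ _ _ I hL h
    rcases h with ⟨N, hN, ⟨e⟩⟩ | ⟨N, hN, ⟨e⟩⟩ | ⟨n, hn, ⟨e⟩⟩
    · obtain ⟨F⟩ := exists_fam_sl hN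
      exact (F.transport e.symm).carries_of_ideal I hL
    · obtain ⟨F⟩ := exists_fam_so hN
      exact (F.transport e.symm).carries_of_ideal I hL
    · obtain ⟨F⟩ := exists_fam_sp hn
      exact (F.transport e.symm).carries_of_ideal I hL
  · intro m N hN
    refine ⟨inferInstance, ?_⟩
    obtain ⟨F⟩ := exists_fam_sl hN
    have : Nontrivial (sl (Fin N) ℂ) := nontrivial_sl (by omega)
    refine F.carries ?_
    intro y hy
    have := orbitDim_sl y hy
    omega

end Pool.Agent.Results.MP_3d4872_al.SmallRank
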