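import Pool.Agent.Work.MP_3d4872_al.Un.Ideal
import Pool.Agent.Work.MP_3d4872_al.Un.Back

/-!
# MP_3d4872_al: the classification of compatible Lie brackets contains the classification of all
finite-dimensional algebras, and is contained in it

Let `𝔤` be a finite-dimensional complex semisimple Lie algebra.

1. Let `𝔤` have an ideal isomorphic to `sl N` with `N ≥ 2 n + 2`, or to `so N` with `N ≥ 4 n + 4`,
   or to `sp (2 N)` with `N ≥ 2 n + 2`. Then there is an affine map `Φ` from the space of all
   bilinear maps `μ : ℂ^n × ℂ^n → ℂ^n` to the space of bilinear maps `𝔤 × 𝔤 → 𝔤` such that every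
   `Φ μ` is a Lie bracket compatible with the bracket of `𝔤`, and `Φ μ`, `Φ ν` are equivalent if
   and only if the algebras `(ℂ^n, μ)`, `(ℂ^n, ν)` are isomorphic. In particular an explicit list
   of normal forms for the compatible brackets of `𝔤` contains an explicit list of all
   `n`-dimensional Lie algebras, of all `n`-dimensional associative algebras, and so on.
2. (A corollary.) For ideals `sl N` with `N ≥ 2 m + 6`, `so N` with `N ≥ 4 m + 12`, `sp (2 N)` with
   `N ≥ 2 m + 6`, there is an affine map from the pairs of complex `m × m` matrices to the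
   compatible brackets of `𝔤` for which equivalence is simultaneous similarity.
3. (The converse, for every `𝔤`.) There is an affine map `Ψ` from the space of bilinear maps
   `𝔤 × 𝔤 → 𝔤` to the space of bilinear maps `ℂ^n × ℂ^n → ℂ^n`, `n = 3 dim 𝔤 + 1`, such that the
   algebras `Ψ β`, `Ψ β'` are isomorphic if and only if `β`, `β'` are equivalent. So the problem
   for all `𝔤` together is the problem of classifying all finite-dimensional algebras, and it
   reduces to the algebras `sl N`: the case `𝔤` is contained in the case `sl N`,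
   `N ≥ 6 dim 𝔤 + 4`.
4. `sl N` is semisimple and 1. holds for `𝔤 = sl N`, `N ≥ 2 n + 2`.

The brackets of 1. are those of the operators
`R X = κ(J, X) h + ∑ κ(y_j, X) M_j` for a fixed semisimple element `h`, fixed `J, y_j`, and `M_j`
depending on `μ`; `κ` is the Killing form. The algebra `Ψ β` is `ℂ e + 𝔤 + 𝔤' + 𝔤''` with the
multiplication `(a, x, y, z) (a', x', y', z') = (a a', 2 a x', 3 a y' + a' x + [x, x'],
4 a z' + a' y + β(x, y'))`.
-/

set_option autoImplicit false

namespace Pool.Agent.Results.MP_3d4872_al.Universality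

open Pool.Agent.Work.MP_3d4872_al
open LieAlgebra LieAlgebra.SpecialLinear

universe u

theorem result :
    (∀ (𝔤 : Type u) [LieRing 𝔤] [LieAlgebra ℂ 𝔤] [FiniteDimensional ℂ 𝔤]
        [LieAlgebra.IsSemisimple ℂ 𝔤],
      (∀ n : ℕ, HasClassicalIdeal (2 * n + 2) 𝔤 → ContainsAlgebras n 𝔤) ∧
        (∀ m : ℕ, HasClassicalIdeal (2 * m + 6) 𝔤 → ContainsMatrixPairs m 𝔤) ∧
        ContainedInAlgebras (3 * Module.finrank ℂ 𝔤 + 1) 𝔤) ∧
    (∀ n N : ℕ, 2 * n + 2 ≤ N →
      LieAlgebra.IsSemisimple ℂ (sl (Fin N) ℂ) ∧ ContainsAlgebras n (sl (Fin N) ℂ)) := by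
  refine ⟨fun 𝔤 _ _ _ _ => ⟨fun n h => h.containsAlgebras, fun m h =>
    ContainsAlgebras.pairs (HasClassicalIdeal.containsAlgebras (h.mono (by omega))),
    containedInAlgebras⟩, fun n N hN => ⟨inferInstance, ?_⟩⟩
  obtain ⟨r, F, hF⟩ := frame_sl hN
  exact hF.containsAlgebras

end Pool.Agent.Results.MP_3d4872_al.Universality
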